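import Pool.Agent.W916.ProjCount

set_option autoImplicit false

/-!
# The number of isomorphism types of finitely generated projective algebras of plane sets

For every positive integer `k` there are exactly continuum many isomorphism types of projective
algebras generated by `k` plane sets.

For a set `A` of natural numbers let `code A` be the plane set whose points are `(n, n)`,
`(n + 1, n)` for natural numbers `n`, and `(-(n + 1), n)` for `n` in `A`. There are terms `t n` in
one variable (in the operations of projective algebras) such that `t n` evaluated at `code A` is
empty if and only if `n` is not in `A`. Hence, if `f` is an isomorphism of the algebra generated by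
`code A` onto an algebra `G`, then the element `f (code A)` of the countable algebra `G`
determines `A`, and so only countably many of the algebras generated by the sets `code A` are
isomorphic to `G`.
-/

namespace Pool.Agent.Results.MP_71be7b_lc.CountTypes

open Set

open Pool.Agent.W916.PA (IsProjectiveAlgebra Isomorphic IsIso code code_inj generated
  generated_isProjectiveAlgebra generated_countable range_const_one subset_generated
  isomorphic_of_kernel le_card_of_fibres ev)

/-- The projective algebras of plane sets that are generated by `k` plane sets. -/
abbrev KGenerated (k : ℕ) : Type :=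
  {F : Set (Set (ℝ × ℝ)) // ∃ S : Fin k → Set (ℝ × ℝ), F = generated (range S)}

/-- The relation of being isomorphic, on the type of all projective algebras generated by `k`
plane sets. -/
def isoSetoid (k : ℕ) : Setoid (KGenerated k) where
  r F G := Isomorphic F.1 G.1
  iseqv := by
    have hP : ∀ F : KGenerated k, IsProjectiveAlgebra F.1 := by
      rintro ⟨_, S, rfl⟩
      exact generated_isProjectiveAlgebra _
    refine ⟨fun F => ⟨id, IsIso.refl _⟩, ?_, ?_⟩
    · rintro F G ⟨f, hf⟩
      exact ⟨_, hf.symm (hP F)⟩
    · rintro F G H ⟨f, hf⟩ ⟨g, hg⟩
      exact ⟨_, hf.trans hg (hP F)⟩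

/-- For every positive integer `k`, the number of isomorphism classes of projective algebras
generated by `k` subsets of the plane is the cardinality of the continuum. -/
theorem result (k : ℕ) (hk : 1 ≤ k) :
    Cardinal.mk (Quotient (isoSetoid k)) = Cardinal.continuum := by
  have hP : ∀ F : KGenerated k, IsProjectiveAlgebra F.1 := by
    rintro ⟨_, S, rfl⟩
    exact generated_isProjectiveAlgebra _
  apply le_antisymm
  · -- upper bound
    choose S hS using fun F : KGenerated k => F.2
    let K : Quotient (isoSetoid k) → Set (Pool.Agent.W916.PA.Tm k × Pool.Agent.W916.PA.Tm k) :=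
      fun q => {p | ev (S q.out) p.1 = ev (S q.out) p.2}
    have hK : Function.Injective K := by
      intro q q' h
      rw [← Quotient.out_eq q, ← Quotient.out_eq q']
      apply Quotient.sound
      show Isomorphic (q.out).1 (q'.out).1
      rw [hS q.out, hS q'.out]
      apply isomorphic_of_kernel
      intro s t
      have := Set.ext_iff.1 h (s, t)
      exact this
    have h1 := Cardinal.mk_le_of_injective hK
    refine h1.trans ?_
    rw [Cardinal.mk_set, ← Cardinal.two_power_aleph0]
    exact Cardinal.power_le_power_left two_ne_zero Cardinal.mk_le_aleph0
  · -- lower bound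
    have hk0 : 0 < k := hk
    have hr : ∀ B : Set (ℝ × ℝ), range (fun _ : Fin k => B) = {B} := by
      intro B
      ext x
      constructor
      · rintro ⟨_, rfl⟩
        rfl
      · rintro rfl
        exact ⟨⟨0, hk0⟩, rfl⟩
    let W : Set ℕ → KGenerated k := fun A =>
      ⟨generated (range (fun _ : Fin k => code A)), fun _ => code A, rfl⟩
    have hmem : ∀ A : Set ℕ, code A ∈ (W A).1 := fun A =>
      subset_generated _ (by rw [hr]; rfl)
    let w : Set ℕ → Quotient (isoSetoid k) := fun A => Quotient.mk _ (W A)
    have h1 : Cardinal.mk (Set ℕ) ≤ Cardinal.mk (Quotient (isoSetoid k)) := by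
      refine le_card_of_fibres w Cardinal.aleph0 ?_ ?_ ?_
      · rw [Cardinal.mk_set, Cardinal.mk_nat, Cardinal.two_power_aleph0]
        exact Cardinal.aleph0_le_continuum
      · rw [Cardinal.mk_set, Cardinal.mk_nat, Cardinal.two_power_aleph0]
        exact Cardinal.aleph0_lt_continuum
      · intro A
        have key : ∀ B : {B : Set ℕ // w B = w A}, ∃ f, IsIso (W B.1).1 (W A).1 f :=
          fun B => Quotient.exact B.2
        choose f hf using key
        let g : {B : Set ℕ // w B = w A} → (W A).1 := fun B =>
          ⟨f B (code B.1), (hf B).bij.mapsTo (hmem B.1)⟩
        have hinj : Function.Injective g := by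
          intro B B' e
          apply Subtype.ext
          exact code_inj (hf B) (hf B') (hP _) (hP _) (hmem _) (hmem _)
            (congrArg Subtype.val e)
        refine (Cardinal.mk_le_of_injective hinj).trans ?_
        exact (generated_countable (fun _ : Fin k => code A)).le_aleph0
    rwa [Cardinal.mk_set, Cardinal.mk_nat, Cardinal.two_power_aleph0] at h1

end Pool.Agent.Results.MP_71be7b_lc.CountTypes
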